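import Pool.Agent.helper47.LVP.Poly

/-!
MP_48d723_al (finite basis property under operations on varieties of Lie algebras over finite
fields).

Let `V` be the variety of Lie algebras over the field with two elements given by the single
identity `[[[[[y₁, y₂], [y₃, y₄]], z], z], z] = 0` with `z = [[x₁, x₂], x₃]`, and let `A` be the
variety of abelian Lie algebras. The product `A V` is the commutator variety `[V, V]`, and it
cannot be defined by finitely many identities.
-/

namespace Pool.Agent.Results.MP_48d723_al.AbelianByOneIdentity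

open FreeLieAlgebra Pool.Agent.helper47.LVP

universe u

/-- The identity `[x₀, x₁] = 0`, which defines the abelian Lie algebras. -/
noncomputable def abelianIdentity : FreeLieAlgebra (ZMod 2) ℕ := ⁅of (ZMod 2) 0, of (ZMod 2) 1⁆

/-- The element `z = [[x₄, x₅], x₆]`. -/
noncomputable def z : FreeLieAlgebra (ZMod 2) ℕ :=
  ⁅⁅of (ZMod 2) 4, of (ZMod 2) 5⁆, of (ZMod 2) 6⁆

/-- The identity `[[[[[x₀, x₁], [x₂, x₃]], z], z], z] = 0` in seven variables. -/
noncomputable def sevenIdentity : FreeLieAlgebra (ZMod 2) ℕ :=
  ⁅⁅⁅⁅⁅of (ZMod 2) 0, of (ZMod 2) 1⁆, ⁅of (ZMod 2) 2, of (ZMod 2) 3⁆⁆, z⁆, z⁆, z⁆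

/-- Over the field with two elements the product of the variety of abelian Lie algebras and the
variety given by `sevenIdentity` is the commutator of the latter variety with itself, and no
finite set of identities defines it. -/
theorem result :
    (∀ (L : Type u) [LieRing L] [LieAlgebra (ZMod 2) L],
      InProduct {abelianIdentity} {sevenIdentity} L ↔
        InCommutator {sevenIdentity} {sevenIdentity} L) ∧
    ∀ C : Finset (FreeLieAlgebra (ZMod 2) ℕ),
      ∃ (L : Type u) (_ : LieRing L) (_ : LieAlgebra (ZMod 2) L),
        ¬ (InProduct {abelianIdentity} {sevenIdentity} L ↔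
            InVar (C : Set (FreeLieAlgebra (ZMod 2) ℕ)) L) ∧
        ¬ (InCommutator {sevenIdentity} {sevenIdentity} L ↔
            InVar (C : Set (FreeLieAlgebra (ZMod 2) ℕ)) L) := by
  refine ⟨fun L _ _ => ?_, fun C => ?_⟩
  · exact (inProduct_iff sevenIdentity L).trans (inCommutator_iff sevenIdentity L).symm
  · obtain ⟨L, i1, i2, h⟩ := main_poly.{u} C
    refine ⟨L, i1, i2, fun h' => h ?_, fun h' => h ?_⟩
    · exact (inProduct_iff sevenIdentity L).symm.trans h'
    · exact (inCommutator_iff sevenIdentity L).symm.trans h'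

end Pool.Agent.Results.MP_48d723_al.AbelianByOneIdentity
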